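import Pool.Agent.Work.MP_91aed7_am.Interface

/-!
# Block JAC: the Jacobian determinant of an automorphism is constant
-/

set_option autoImplicit false

namespace Pool.AM.JAC_

open MvPolynomial

theorem chain {k : Type} [Field k] {σ : Type} [DecidableEq σ] (s : Finset σ)
    (θ : MvPolynomial σ k ≃ₐ[k] MvPolynomial σ k) (v : σ) {g : MvPolynomial σ k}
    (hg : g ∈ MvPolynomial.supported k (s : Set σ)) :
    pderiv v (θ g) = ∑ l ∈ s, θ (pderiv l g) * pderiv v (θ (X l)) := by
  rw [MvPolynomial.supported] at hg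
  induction hg using Algebra.adjoin_induction with
  | mem x hx =>
    obtain ⟨w, hw, rfl⟩ := hx
    rw [Finset.sum_eq_single_of_mem w hw]
    · rw [pderiv_X_self, map_one, one_mul]
    · intro l _ hlw
      rw [pderiv_X_of_ne (Ne.symm hlw), map_zero, zero_mul]
  | algebraMap r =>
    rw [AlgEquiv.commutes]
    rw [MvPolynomial.algebraMap_eq, pderiv_C]
    symm
    apply Finset.sum_eq_zero
    intro l _
    rw [pderiv_C, map_zero, zero_mul]
  | add x y _ _ hx hy =>
    rw [map_add, map_add, hx, hy, ← Finset.sum_add_distrib]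
    apply Finset.sum_congr rfl
    intro l _
    rw [map_add, map_add, add_mul]
  | mul x y _ _ hx hy =>
    rw [map_mul, pderiv_mul, hx, hy, Finset.sum_mul, Finset.mul_sum, ← Finset.sum_add_distrib]
    apply Finset.sum_congr rfl
    intro l _
    rw [pderiv_mul, map_add, map_mul, map_mul]
    ring

end Pool.AM.JAC_

open MvPolynomial in
theorem Pool.AM.stmt_JAC : Pool.AM.Stmt_JAC := by
  intro k _ σ _ s θ hs
  set B : Matrix s s (MvPolynomial σ k) := Matrix.of fun (u v : s) =>
      MvPolynomial.pderiv (v : σ) (θ (MvPolynomial.X (u : σ))) with hB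
  have h : (Matrix.of fun (u l : s) => θ (pderiv (l : σ) (θ.symm (X (u : σ))))) * B = 1 := by
    ext1 u v
    rw [Matrix.mul_apply]
    simp only [hB, Matrix.of_apply]
    rw [Finset.sum_coe_sort s (fun l => θ (pderiv l (θ.symm (X (u : σ)))) *
      pderiv (v : σ) (θ (X l)))]
    rw [← Pool.AM.JAC_.chain s θ v (hs u u.2), AlgEquiv.apply_symm_apply]
    by_cases huv : u = v
    · rw [huv, pderiv_X_self, Matrix.one_apply_eq]
    · rw [pderiv_X_of_ne (fun h => huv (Subtype.ext h)), Matrix.one_apply_ne huv]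
  have hdet : IsUnit B.det := by
    have h2 := congrArg Matrix.det h
    rw [Matrix.det_mul, Matrix.det_one] at h2
    exact IsUnit.of_mul_eq_one_right _ h2
  obtain ⟨c, hc, hc2⟩ := MvPolynomial.isUnit_iff_eq_C_of_isReduced.1 hdet
  exact ⟨c, hc.ne_zero, hc2⟩
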