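import Pool.Agent.Work.MP_91aed7_am.Interface

/-!
# Block PDR: finitely generated modules over `k[x_1, ..., x_m]` have finite resolutions
-/

set_option autoImplicit false

open CategoryTheory

namespace Pool.AM.PDR_

section

attribute [local instance] RingHomInvPair.of_ringEquiv

theorem transfer {R S : Type} [CommRing R] [CommRing S] (e : R ≃+* S) (d : ℕ)
    (h : ∀ M : ModuleCat.{0} R, HasProjectiveDimensionLE M d) (N : ModuleCat.{0} S) :
    HasProjectiveDimensionLE N d := by
  let _ : Module R N := Module.compHom N (e : R →+* S)
  let M : ModuleCat.{0} R := ModuleCat.of R N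
  have := h M
  let e' : M ≃ₛₗ[RingHomClass.toRingHom e] N :=
    { toFun := fun x => x
      map_add' := fun _ _ => rfl
      map_smul' := fun _ _ => rfl
      invFun := fun x => x
      left_inv := fun _ => rfl
      right_inv := fun _ => rfl }
  exact ModuleCat.hasProjectiveDimensionLE_of_semiLinearEquiv e e' d

end

theorem pd_le (hGD : Stmt_GD) (k : Type) [Field k] (m : ℕ) :
    ∀ M : ModuleCat.{0} (MvPolynomial (Fin m) k), HasProjectiveDimensionLE M m := by
  induction m with
  | zero =>
    apply transfer (MvPolynomial.isEmptyRingEquiv k (Fin 0)).symm 0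
    intro M
    have h : Module.Projective k M := Module.projective_of_isSemisimpleRing k M
    exact (projective_iff_hasProjectiveDimensionLE_zero _).1
      ((IsProjective.iff_projective (M : Type)).1 h)
  | succ m ih =>
    apply transfer (MvPolynomial.finSuccEquiv k m).symm.toRingEquiv (m + 1)
    exact hGD (MvPolynomial (Fin m) k) m ih

theorem pd_res {R : Type} [CommRing R] [IsNoetherianRing R] (d : ℕ) :
    ∀ (W : Type) [AddCommGroup W] [Module R W], Module.Finite R W →
      HasProjectiveDimensionLE (ModuleCat.of R W) d → PD R d W := by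
  induction d with
  | zero =>
    intro W _ _ _ h
    rw [← projective_iff_hasProjectiveDimensionLE_zero, ← IsProjective.iff_projective] at h
    exact h
  | succ d ih =>
    intro W _ _ hfin h
    obtain ⟨r, f, hf⟩ := Module.Finite.exists_fin' R W
    refine ⟨Fin r → R, inferInstance, inferInstance, f, inferInstance, inferInstance, hf, ?_⟩
    apply ih
    · infer_instance
    · have hS := LinearMap.shortExact_shortComplexKer hf
      have hP : Projective (ModuleCat.of R (Fin r → R)) :=
        (IsProjective.iff_projective _).1 inferInstance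
      exact (hS.hasProjectiveDimensionLT_X₃_iff d hP).1 h

end Pool.AM.PDR_

theorem Pool.AM.stmt_PDR (hGD : Pool.AM.Stmt_GD) : Pool.AM.Stmt_PDR := by
  intro k _ m W _ _ hW
  exact ⟨m, Pool.AM.PDR_.pd_res m W hW (Pool.AM.PDR_.pd_le hGD k m _)⟩
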